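import Pool.Agent.P.MP_e3cf1a_co.Full

/-!
The two counting lemmas: few triangles when three vertices have few common neighbours, and few
edges when the tips of every diamond have few common neighbours.
-/

namespace Pool.Agent.P.MP_e3cf1a_co

open Finset

lemma sum_card_filter_sq {α β : Type*} (r : α → β → Prop) [∀ a b, Decidable (r a b)]
    (s : Finset α) (t : Finset β) :
    ∑ a ∈ s, (t.filter (r a)).card ^ 2 =
      ∑ u ∈ t, ∑ v ∈ t, (s.filter (fun a => r a u ∧ r a v)).card := by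
  simp only [card_filter, sq, sum_mul_sum]
  rw [sum_comm]
  refine sum_congr rfl fun u _ => ?_
  rw [sum_comm]
  refine sum_congr rfl fun v _ => sum_congr rfl fun a _ => ?_
  by_cases h1 : r a u <;> by_cases h2 : r a v <;> simp [h1, h2]

lemma sum_card_filter_cube {α β : Type*} (r : α → β → Prop) [∀ a b, Decidable (r a b)]
    (s : Finset α) (t : Finset β) :
    ∑ a ∈ s, (t.filter (r a)).card ^ 3 =
      ∑ u ∈ t, ∑ v ∈ t, ∑ w ∈ t, (s.filter (fun a => r a u ∧ r a v ∧ r a w)).card := by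
  have h : ∀ a, (t.filter (r a)).card ^ 3 =
      ∑ u ∈ t, ∑ v ∈ t, ∑ w ∈ t, if r a u ∧ r a v ∧ r a w then 1 else 0 := by
    intro a
    rw [card_filter, pow_three, sum_mul]
    refine sum_congr rfl fun u _ => ?_
    rw [sum_mul_sum, mul_sum]
    refine sum_congr rfl fun v _ => ?_
    rw [mul_sum]
    refine sum_congr rfl fun w _ => ?_
    by_cases h1 : r a u <;> by_cases h2 : r a v <;> by_cases h3 : r a w <;> simp [h1, h2, h3]
  simp only [h]
  simp only [card_filter]
  rw [sum_comm]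
  refine sum_congr rfl fun u _ => ?_
  rw [sum_comm]
  refine sum_congr rfl fun v _ => ?_
  rw [sum_comm]

variable {U : Type*} [Fintype U] [DecidableEq U]

open Classical in
/-- Neighbours in a graph, as a finset. -/
noncomputable def nbr (S : SimpleGraph U) (x : U) : Finset U := univ.filter (fun y => S.Adj x y)

omit [DecidableEq U] in
lemma mem_nbr {S : SimpleGraph U} {x y : U} : y ∈ nbr S x ↔ S.Adj x y := by
  simp [nbr]

lemma sum_deg_cube (S : SimpleGraph U) (D : ℕ)
    (h : ∀ u v w, u ≠ v → u ≠ w → v ≠ w → (nbr S u ∩ nbr S v ∩ nbr S w).card ≤ D) :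
    ∑ x, (nbr S x).card ^ 3 ≤ (D + 3) * (Fintype.card U) ^ 3 := by
  classical
  set n := Fintype.card U with hn
  have h1 := sum_card_filter_cube (fun x y => S.Adj x y) (univ : Finset U) (univ : Finset U)
  have h2 : ∑ x, (nbr S x).card ^ 3 = ∑ x, (univ.filter (fun y => S.Adj x y)).card ^ 3 := by
    refine sum_congr rfl fun x _ => ?_
    congr 2
  rw [h2, h1]
  have h3 : ∀ u v w, (univ.filter (fun a => S.Adj a u ∧ S.Adj a v ∧ S.Adj a w)).card ≤
      D + ((if u = v then n else 0) + (if u = w then n else 0) + (if v = w then n else 0)) := by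
    intro u v w
    have hle : (univ.filter (fun a => S.Adj a u ∧ S.Adj a v ∧ S.Adj a w)).card ≤ n :=
      card_le_univ _
    by_cases huv : u = v
    · simp only [huv, if_true] at hle ⊢; omega
    by_cases huw : u = w
    · simp only [huw, if_true] at hle ⊢; omega
    by_cases hvw : v = w
    · simp only [hvw, if_true] at hle ⊢; omega
    have := h u v w huv huw hvw
    have h4 : univ.filter (fun a => S.Adj a u ∧ S.Adj a v ∧ S.Adj a w) =
        nbr S u ∩ nbr S v ∩ nbr S w := by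
      ext a
      simp only [mem_filter, mem_univ, true_and, mem_inter, mem_nbr]
      constructor
      · rintro ⟨a1, a2, a3⟩; exact ⟨⟨a1.symm, a2.symm⟩, a3.symm⟩
      · rintro ⟨⟨a1, a2⟩, a3⟩; exact ⟨a1.symm, a2.symm, a3.symm⟩
    rw [h4]
    omega
  calc _ ≤ ∑ u : U, ∑ v : U, ∑ w : U, (D + ((if u = v then n else 0) +
        (if u = w then n else 0) + (if v = w then n else 0))) :=
        sum_le_sum fun u _ => sum_le_sum fun v _ => sum_le_sum fun w _ => h3 u v w
    _ = (D + 3) * n ^ 3 := by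
        simp [sum_add_distrib, ← hn]
        ring

lemma local_bound (S : SimpleGraph U) (D : ℕ)
    (h : ∀ u v w, u ≠ v → u ≠ w → v ≠ w → (nbr S u ∩ nbr S v ∩ nbr S w).card ≤ D) (x : U) :
    (∑ y ∈ nbr S x, (nbr S x ∩ nbr S y).card) ^ 2 ≤ (D + 1) * (nbr S x).card ^ 3 := by
  classical
  set m := (nbr S x).card with hm
  have h1 := sum_card_filter_sq (fun y u => S.Adj y u) (nbr S x) (nbr S x)
  have h2 : ∀ y, (nbr S x).filter (fun u => S.Adj y u) = nbr S x ∩ nbr S y := by
    intro y; ext u; simp [mem_nbr]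
  simp only [h2] at h1
  have h3 : ∀ u ∈ nbr S x, ∀ v ∈ nbr S x,
      ((nbr S x).filter (fun a => S.Adj a u ∧ S.Adj a v)).card ≤
        D + (if u = v then m else 0) := by
    intro u hu v hv
    have hle : ((nbr S x).filter (fun a => S.Adj a u ∧ S.Adj a v)).card ≤ m :=
      card_filter_le _ _
    by_cases huv : u = v
    · simp only [huv, if_true] at hle ⊢; omega
    have := h x u v (mem_nbr.mp hu).ne (mem_nbr.mp hv).ne huv
    have h4 : (nbr S x).filter (fun a => S.Adj a u ∧ S.Adj a v) =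
        nbr S x ∩ nbr S u ∩ nbr S v := by
      ext a
      simp only [mem_filter, mem_inter, mem_nbr]
      constructor
      · rintro ⟨a1, a2, a3⟩; exact ⟨⟨a1, a2.symm⟩, a3.symm⟩
      · rintro ⟨⟨a1, a2⟩, a3⟩; exact ⟨a1, a2.symm, a3.symm⟩
    rw [h4]
    omega
  have h5 : ∑ y ∈ nbr S x, (nbr S x ∩ nbr S y).card ^ 2 ≤ (D + 1) * m ^ 2 := by
    rw [h1]
    calc _ ≤ ∑ u ∈ nbr S x, ∑ v ∈ nbr S x, (D + (if u = v then m else 0)) :=
          sum_le_sum fun u hu => sum_le_sum fun v hv => h3 u hu v hv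
      _ = ∑ u ∈ nbr S x, (m * D + m) := by
          refine sum_congr rfl fun u hu => ?_
          rw [sum_add_distrib, sum_const, sum_ite_eq, if_pos hu, smul_eq_mul]
      _ = (D + 1) * m ^ 2 := by
          rw [sum_const, smul_eq_mul]
          ring
  have h6 := sq_sum_le_card_mul_sum_sq (s := nbr S x) (f := fun y => (nbr S x ∩ nbr S y).card)
  calc _ ≤ m * ∑ y ∈ nbr S x, (nbr S x ∩ nbr S y).card ^ 2 := h6
    _ ≤ m * ((D + 1) * m ^ 2) := Nat.mul_le_mul_left _ h5
    _ = (D + 1) * m ^ 3 := by ring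

/-- Few triangles when any three vertices have at most `D` common neighbours. -/
lemma triangles_le (S : SimpleGraph U) (D : ℕ)
    (h : ∀ u v w, u ≠ v → u ≠ w → v ≠ w → (nbr S u ∩ nbr S v ∩ nbr S w).card ≤ D) :
    ∑ x, ∑ y ∈ nbr S x, (nbr S x ∩ nbr S y).card ≤ (D + 3) * (Fintype.card U) ^ 2 := by
  set n := Fintype.card U with hn
  have h1 := sq_sum_le_card_mul_sum_sq (s := (univ : Finset U))
    (f := fun x => ∑ y ∈ nbr S x, (nbr S x ∩ nbr S y).card)
  have h2 : ∑ x, (∑ y ∈ nbr S x, (nbr S x ∩ nbr S y).card) ^ 2 ≤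
      (D + 1) * ((D + 3) * n ^ 3) := by
    calc _ ≤ ∑ x, (D + 1) * (nbr S x).card ^ 3 := sum_le_sum fun x _ => local_bound S D h x
      _ = (D + 1) * ∑ x, (nbr S x).card ^ 3 := by rw [mul_sum]
      _ ≤ _ := Nat.mul_le_mul_left _ (sum_deg_cube S D h)
  have h3 : (∑ x, ∑ y ∈ nbr S x, (nbr S x ∩ nbr S y).card) ^ 2 ≤ ((D + 3) * n ^ 2) ^ 2 := by
    calc _ ≤ n * ∑ x, (∑ y ∈ nbr S x, (nbr S x ∩ nbr S y).card) ^ 2 := by
          simpa using h1
      _ ≤ n * ((D + 1) * ((D + 3) * n ^ 3)) := Nat.mul_le_mul_left _ h2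
      _ ≤ n * ((D + 3) * ((D + 3) * n ^ 3)) :=
          Nat.mul_le_mul_left _ (Nat.mul_le_mul_right _ (by omega))
      _ = ((D + 3) * n ^ 2) ^ 2 := by ring
  exact (Nat.pow_le_pow_iff_left (by norm_num)).mp h3

omit [Fintype U] in
lemma shadow_adj {H : Finset (Finset U)} (h3 : IsThreeGraph H) {x y z : U}
    (h : ({x, y, z} : Finset U) ∈ H) :
    (shadowGraph H).Adj x y ∧ (shadowGraph H).Adj x z ∧ (shadowGraph H).Adj y z := by
  obtain ⟨h1, h2, h4⟩ := distinct_of_mem h3 h
  refine ⟨⟨h1, z, h⟩, ⟨h2, y, ?_⟩, ⟨h4, x, ?_⟩⟩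
  · rwa [pair_comm]
  · have : ({y, z, x} : Finset U) = {x, y, z} := by
      ext w; simp only [mem_insert, mem_singleton]; tauto
    rwa [this]

/-- Case of `K_{3,t}`. -/
lemma card_le_of_three {H : Finset (Finset U)} (h3 : IsThreeGraph H) (D : ℕ)
    (h : ∀ u v w, u ≠ v → u ≠ w → v ≠ w → (nbr (shadowGraph H) u ∩ nbr (shadowGraph H) v ∩
      nbr (shadowGraph H) w).card ≤ D) :
    H.card ≤ (D + 3) * (Fintype.card U) ^ 2 := by
  set S := shadowGraph H with hS
  refine le_trans ?_ (triangles_le S D h)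
  have hsub : H ⊆ univ.biUnion (fun x => (nbr S x).biUnion (fun y =>
      (nbr S x ∩ nbr S y).image (fun z => ({x, y, z} : Finset U)))) := by
    intro e he
    obtain ⟨x, y, z, -, -, -, rfl⟩ := card_eq_three.mp (h3 e he)
    obtain ⟨a1, a2, a3⟩ := shadow_adj h3 he
    simp only [mem_biUnion, mem_univ, true_and, mem_image, mem_inter, mem_nbr]
    exact ⟨x, y, a1, z, ⟨a2, a3⟩, rfl⟩
  refine (card_le_card hsub).trans (card_biUnion_le.trans ?_)
  refine sum_le_sum fun x _ => card_biUnion_le.trans ?_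
  exact sum_le_sum fun y _ => card_image_le

/-- Case of two vertices joined to an edge and to many further vertices. -/
lemma card_le_of_two {H : Finset (Finset U)} (h3 : IsThreeGraph H) {d : ℕ} (hF : Full d H)
    (hd : 2 ≤ d) (D : ℕ)
    (h : ∀ u v x y, u ≠ v → (shadowGraph H).Adj x y →
      x ∈ nbr (shadowGraph H) u ∩ nbr (shadowGraph H) v →
      y ∈ nbr (shadowGraph H) u ∩ nbr (shadowGraph H) v →
      (nbr (shadowGraph H) u ∩ nbr (shadowGraph H) v).card ≤ D) :
    H.card ≤ D ^ 2 * (Fintype.card U) ^ 2 := by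
  set S := shadowGraph H with hS
  let P : Finset (U × U) := univ.filter (fun p => (nbr S p.1 ∩ nbr S p.2).card ≤ D)
  have hsub : H ⊆ P.biUnion (fun p =>
      ((nbr S p.1 ∩ nbr S p.2) ×ˢ (nbr S p.1 ∩ nbr S p.2)).image
        (fun q => ({q.1, q.2, p.1} : Finset U))) := by
    intro e he
    obtain ⟨x, y, u, -, -, -, rfl⟩ := card_eq_three.mp (h3 e he)
    have h1 : 1 < (link2 H x y).card := lt_of_lt_of_le (by omega) (hF _ _ _ he)
    obtain ⟨v, hv, hvu⟩ := exists_mem_ne h1 u
    obtain ⟨a1, a2, a3⟩ := shadow_adj h3 he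
    obtain ⟨-, b2, b3⟩ := shadow_adj h3 (mem_link2.mp hv)
    have hx : x ∈ nbr S u ∩ nbr S v := mem_inter.mpr ⟨mem_nbr.mpr a2.symm, mem_nbr.mpr b2.symm⟩
    have hy : y ∈ nbr S u ∩ nbr S v := mem_inter.mpr ⟨mem_nbr.mpr a3.symm, mem_nbr.mpr b3.symm⟩
    rw [mem_biUnion]
    refine ⟨(u, v), ?_, ?_⟩
    · simp only [P, mem_filter, mem_univ, true_and]
      exact h u v x y hvu.symm a1 hx hy
    · rw [mem_image]
      exact ⟨(x, y), mem_product.mpr ⟨hx, hy⟩, rfl⟩
  refine (card_le_card hsub).trans (card_biUnion_le.trans ?_)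
  calc _ ≤ ∑ _p ∈ P, D ^ 2 := by
        refine sum_le_sum fun p hp => card_image_le.trans ?_
        have := (mem_filter.mp hp).2
        rw [card_product, sq]
        exact Nat.mul_le_mul this this
    _ = P.card * D ^ 2 := by rw [sum_const, smul_eq_mul]
    _ ≤ (Fintype.card U) ^ 2 * D ^ 2 := by
        apply Nat.mul_le_mul_right
        have := card_le_univ P
        simpa [Fintype.card_prod, sq] using this
    _ = _ := by ring

end Pool.Agent.P.MP_e3cf1a_co
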