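import Mathlib

/-!
Definitions for the Turan problem of 3-uniform expansions.
-/

namespace Pool.Agent.P.MP_e3cf1a_co

/-- A finite family `H` of finite subsets of `U` is a 3-graph if every member has 3 elements. -/
def IsThreeGraph {U : Type*} (H : Finset (Finset U)) : Prop :=
  ∀ e ∈ H, e.card = 3

/-- `H` (on vertex set `U`) contains a subhypergraph isomorphic to `F` (on vertex set `W`):
some injective map of the vertices sends every edge of `F` to an edge of `H`. -/
def ContainsCopy {U W : Type*} (H : Finset (Finset U)) (F : Set (Finset W)) : Prop :=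
  ∃ φ : W ↪ U, ∀ e ∈ F, e.map φ ∈ H

/-- The Turan number `ex_3(n, F)`: the largest number of edges of a 3-graph on `n` vertices
with no subhypergraph isomorphic to `F`. -/
noncomputable def ex3 {W : Type*} (n : ℕ) (F : Set (Finset W)) : ℕ :=
  sSup {m : ℕ | ∃ H : Finset (Finset (Fin n)),
    IsThreeGraph H ∧ ¬ ContainsCopy H F ∧ H.card = m}

/-- The 3-uniform expansion `G⁺` of a graph `G`: its vertices are those of `G` together with one
new vertex for each edge of `G`, and each edge `xy` gives the triple `{x, y, z_xy}`. -/
def expansion {V : Type*} [DecidableEq V] (G : SimpleGraph V) :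
    Set (Finset (V ⊕ G.edgeSet)) :=
  {t | ∃ (x y : V) (h : G.Adj x y),
    t = {Sum.inl x, Sum.inl y, Sum.inr (⟨s(x, y), h⟩ : G.edgeSet)}}

/-- `X` is a crosscut of `F`: it meets every edge of `F` in exactly one vertex. -/
def IsCrosscut {W : Type*} [DecidableEq W] (F : Set (Finset W)) (X : Finset W) : Prop :=
  ∀ e ∈ F, (e ∩ X).card = 1

/-- `σ(F) = k`: `F` has a crosscut, and the minimum size of a crosscut of `F` is `k`. -/
def CrosscutNumberEq {W : Type*} [DecidableEq W] (F : Set (Finset W)) (k : ℕ) : Prop :=
  IsLeast {m : ℕ | ∃ X : Finset W, IsCrosscut F X ∧ X.card = m} k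

end Pool.Agent.P.MP_e3cf1a_co
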