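import Pool.Agent.P.MP_e3cf1a_co.Count

/-!
Embedding a graph with a small crosscut into the shadow graph, and the upper bound.
-/

namespace Pool.Agent.P.MP_e3cf1a_co

open Finset

variable {U : Type*} [Fintype U] [DecidableEq U]
variable {V : Type*} [Fintype V] [DecidableEq V]

omit [Fintype U] in
lemma embed_of (G : SimpleGraph V) (S : SimpleGraph U) (I W : Finset V) (A B : Finset U)
    (hIA : I.card ≤ A.card) (hAB : ∀ a ∈ A, ∀ b ∈ B, S.Adj a b)
    (hB : 2 * Fintype.card V ≤ B.card) (h : V → U) (hinj : Set.InjOn h W)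
    (hmaps : ∀ v ∈ W, h v ∈ B) (hind : ∀ x ∈ I, ∀ y ∈ I, ¬ G.Adj x y)
    (hout : ∀ x y, G.Adj x y → x ∉ I → y ∉ I → x ∈ W ∧ y ∈ W ∧ S.Adj (h x) (h y)) :
    ∃ ψ : V ↪ U, ∀ x y, G.Adj x y → S.Adj (ψ x) (ψ y) := by
  obtain ⟨g, hg⟩ := Function.Embedding.exists_of_card_le_finset (α := I) (s := A)
    (by simpa using hIA)
  have hk : Fintype.card V ≤ (B \ W.image h).card := by
    have h1 := le_card_sdiff (W.image h) B
    have h2 : (W.image h).card ≤ Fintype.card V := card_image_le.trans (card_le_univ W)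
    omega
  obtain ⟨k, hk⟩ := Function.Embedding.exists_of_card_le_finset hk
  have hgA : ∀ v, g v ∈ A := fun v => hg ⟨v, rfl⟩
  have hkB : ∀ v, k v ∈ B ∧ k v ∉ W.image h := fun v => mem_sdiff.mp (hk ⟨v, rfl⟩)
  let ψ : V → U := fun v => if hv : v ∈ I then g ⟨v, hv⟩ else if v ∈ W then h v else k v
  have hψA : ∀ v ∈ I, ψ v ∈ A := by
    intro v hv
    simp only [ψ, dif_pos hv]
    exact hgA _
  have hψB : ∀ v, v ∉ I → ψ v ∈ B := by
    intro v hv
    simp only [ψ, dif_neg hv]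
    split_ifs with hw
    · exact hmaps v hw
    · exact (hkB v).1
  have hinjψ : Function.Injective ψ := by
    intro v w hvw
    by_cases hv : v ∈ I <;> by_cases hw : w ∈ I
    · simp only [ψ, dif_pos hv, dif_pos hw] at hvw
      exact congrArg Subtype.val (g.injective hvw)
    · exact absurd hvw (hAB _ (hψA v hv) _ (hψB w hw)).ne
    · exact absurd hvw.symm (hAB _ (hψA w hw) _ (hψB v hv)).ne
    · simp only [ψ, dif_neg hv, dif_neg hw] at hvw
      split_ifs at hvw with h1 h2 h2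
      · exact hinj h1 h2 hvw
      · exact absurd (hvw ▸ mem_image_of_mem h h1) (hkB w).2
      · exact absurd (hvw ▸ mem_image_of_mem h h2) (hkB v).2
      · exact k.injective hvw
  refine ⟨⟨ψ, hinjψ⟩, fun x y hxy => ?_⟩
  change S.Adj (ψ x) (ψ y)
  by_cases hx : x ∈ I <;> by_cases hy : y ∈ I
  · exact absurd hxy (hind x hx y hy)
  · exact hAB _ (hψA x hx) _ (hψB y hy)
  · exact (hAB _ (hψA y hy) _ (hψB x hx)).symm
  · obtain ⟨h1, h2, h3⟩ := hout x y hxy hx hy
    simp only [ψ, dif_neg hx, dif_neg hy, if_pos h1, if_pos h2]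
    exact h3

omit [Fintype U] [DecidableEq U] [Fintype V] in
lemma one_edge (S : SimpleGraph U) (B : Finset U) {x1 x2 : U} (h12 : S.Adj x1 x2)
    (b1 : x1 ∈ B) (b2 : x2 ∈ B) {a b : V} (hab : a ≠ b) :
    ∃ (h : V → U) (W : Finset V), Set.InjOn h W ∧ (∀ v ∈ W, h v ∈ B) ∧
      a ∈ W ∧ b ∈ W ∧ S.Adj (h a) (h b) := by
  have n12 := h12.ne
  refine ⟨fun v => if v = a then x1 else x2, {a, b}, ?_, ?_, by simp, by simp, ?_⟩
  · intro v hv w hw hvw
    simp only [coe_insert, coe_singleton, Set.mem_insert_iff, Set.mem_singleton_iff] at hv hw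
    rcases hv with rfl | rfl <;> rcases hw with rfl | rfl <;> simp_all [hab.symm]
  · intro v _
    dsimp only
    split_ifs <;> assumption
  · simpa [hab.symm] using h12

omit [Fintype U] [DecidableEq U] [Fintype V] in
lemma two_edge_share (S : SimpleGraph U) (B : Finset U) {x1 x2 x3 : U} (h12 : S.Adj x1 x2)
    (h23 : S.Adj x2 x3) (n13 : x1 ≠ x3)
    (b1 : x1 ∈ B) (b2 : x2 ∈ B) (b3 : x3 ∈ B) {a b b' : V} (hab : a ≠ b) (hab' : a ≠ b') :
    ∃ (h : V → U) (W : Finset V), Set.InjOn h W ∧ (∀ v ∈ W, h v ∈ B) ∧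
      a ∈ W ∧ b ∈ W ∧ b' ∈ W ∧ S.Adj (h a) (h b) ∧ S.Adj (h a) (h b') := by
  have n12 := h12.ne
  have n23 := h23.ne
  by_cases hbb : b' = b
  · obtain ⟨h, W, h1, h2, h3, h4, h5⟩ := one_edge S B h12 b1 b2 hab
    subst hbb
    exact ⟨h, W, h1, h2, h3, h4, h4, h5, h5⟩
  have hbb' : b ≠ b' := fun h => hbb h.symm
  refine ⟨fun v => if v = a then x2 else if v = b then x1 else x3, {a, b, b'}, ?_, ?_,
    by simp, by simp, by simp, ?_, ?_⟩
  · intro v hv w hw hvw
    simp only [coe_insert, coe_singleton, Set.mem_insert_iff, Set.mem_singleton_iff] at hv hw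
    rcases hv with rfl | rfl | rfl <;> rcases hw with rfl | rfl | rfl <;>
      simp_all [hab.symm, hab'.symm]
  · intro v _
    dsimp only
    split_ifs <;> assumption
  · simpa [hab.symm] using h12.symm
  · simpa [hab'.symm, hbb] using h23

omit [Fintype U] [DecidableEq U] [Fintype V] in
lemma two_edge (S : SimpleGraph U) (B : Finset U) {x1 x2 x3 x4 : U} (h12 : S.Adj x1 x2)
    (h23 : S.Adj x2 x3) (h34 : S.Adj x3 x4) (n13 : x1 ≠ x3) (n14 : x1 ≠ x4) (n24 : x2 ≠ x4)
    (b1 : x1 ∈ B) (b2 : x2 ∈ B) (b3 : x3 ∈ B) (b4 : x4 ∈ B) {a b a' b' : V} (hab : a ≠ b)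
    (hab' : a' ≠ b') :
    ∃ (h : V → U) (W : Finset V), Set.InjOn h W ∧ (∀ v ∈ W, h v ∈ B) ∧
      a ∈ W ∧ b ∈ W ∧ a' ∈ W ∧ b' ∈ W ∧ S.Adj (h a) (h b) ∧ S.Adj (h a') (h b') := by
  by_cases e1 : a = a'
  · subst e1
    obtain ⟨h, W, h1, h2, h3, h4, h5, h6, h7⟩ := two_edge_share S B h12 h23 n13 b1 b2 b3 hab hab'
    exact ⟨h, W, h1, h2, h3, h4, h3, h5, h6, h7⟩
  by_cases e2 : a = b'
  · subst e2
    obtain ⟨h, W, h1, h2, h3, h4, h5, h6, h7⟩ :=
      two_edge_share S B h12 h23 n13 b1 b2 b3 hab hab'.symm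
    exact ⟨h, W, h1, h2, h3, h4, h5, h3, h6, h7.symm⟩
  by_cases e3 : b = a'
  · subst e3
    obtain ⟨h, W, h1, h2, h3, h4, h5, h6, h7⟩ :=
      two_edge_share S B h12 h23 n13 b1 b2 b3 hab.symm hab'
    exact ⟨h, W, h1, h2, h4, h3, h3, h5, h6.symm, h7⟩
  by_cases e4 : b = b'
  · subst e4
    obtain ⟨h, W, h1, h2, h3, h4, h5, h6, h7⟩ :=
      two_edge_share S B h12 h23 n13 b1 b2 b3 hab.symm hab'.symm
    exact ⟨h, W, h1, h2, h4, h3, h5, h3, h6.symm, h7.symm⟩
  have n12 := h12.ne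
  have n23 := h23.ne
  have n34 := h34.ne
  have e1' : a' ≠ a := fun h => e1 h.symm
  have e2' : b' ≠ a := fun h => e2 h.symm
  have e3' : a' ≠ b := fun h => e3 h.symm
  have e4' : b' ≠ b := fun h => e4 h.symm
  have e5 : b ≠ a := hab.symm
  have e6 : b' ≠ a' := hab'.symm
  refine ⟨fun v => if v = a then x1 else if v = b then x2 else if v = a' then x3 else x4,
    {a, b, a', b'}, ?_, ?_, by simp, by simp, by simp, by simp, ?_, ?_⟩
  · intro v hv w hw hvw
    simp only [coe_insert, coe_singleton, Set.mem_insert_iff, Set.mem_singleton_iff] at hv hw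
    rcases hv with rfl | rfl | rfl | rfl <;> rcases hw with rfl | rfl | rfl | rfl <;>
      simp_all
  · intro v _
    dsimp only
    split_ifs <;> assumption
  · simpa [e5] using h12
  · simpa [e1', e2', e3', e4', e6] using h34

/-- A nonempty full 3-graph has a vertex with a large neighbourhood holding a path on four
vertices. -/
lemma exists_path_in_nbr {H : Finset (Finset U)} (h3 : IsThreeGraph H) {d : ℕ} (hF : Full d H)
    (hd : 3 ≤ d) (hne : H.Nonempty) :
    ∃ c x1 x2 x3 x4 : U, (shadowGraph H).Adj x1 x2 ∧ (shadowGraph H).Adj x2 x3 ∧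
      (shadowGraph H).Adj x3 x4 ∧ x1 ≠ x3 ∧ x1 ≠ x4 ∧ x2 ≠ x4 ∧
      x1 ∈ nbr (shadowGraph H) c ∧ x2 ∈ nbr (shadowGraph H) c ∧
      x3 ∈ nbr (shadowGraph H) c ∧ x4 ∈ nbr (shadowGraph H) c ∧
      d ≤ (nbr (shadowGraph H) c).card := by
  obtain ⟨e, he⟩ := hne
  obtain ⟨c, x2, x1, -, -, -, rfl⟩ := card_eq_three.mp (h3 e he)
  have l2 := hF _ _ _ he
  obtain ⟨x3, hx3, n31⟩ := exists_mem_ne (s := link2 H c x2) (by omega) x1
  have he3 : ({c, x3, x2} : Finset U) ∈ H := by
    rw [pair_comm]; exact mem_link2.mp hx3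
  have l3 := hF _ _ _ he3
  have : (({x1, x2} : Finset U)).card < (link2 H c x3).card :=
    lt_of_le_of_lt card_le_two (by omega)
  obtain ⟨x4, hx4, n4⟩ := exists_mem_notMem_of_card_lt_card this
  simp only [mem_insert, mem_singleton, not_or] at n4
  obtain ⟨a1, a2, a3⟩ := shadow_adj h3 he
  obtain ⟨b1, -, b3⟩ := shadow_adj h3 he3
  obtain ⟨-, c2, c3⟩ := shadow_adj h3 (mem_link2.mp hx4)
  refine ⟨c, x1, x2, x3, x4, a3.symm, b3.symm, c3, n31.symm, fun h => n4.1 h.symm,
    fun h => n4.2 h.symm, mem_nbr.mpr a2, mem_nbr.mpr a1, mem_nbr.mpr b1, mem_nbr.mpr c2, ?_⟩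
  refine l2.trans (card_le_card fun z hz => ?_)
  exact mem_nbr.mpr (shadow_adj h3 (mem_link2.mp hz)).2.1

omit [Fintype V] in
/-- The shape of a graph whose expansion has a crosscut of size three. -/
lemma shape_of_crosscut (G : SimpleGraph V) {X : Finset (V ⊕ G.edgeSet)}
    (hX : IsCrosscut (expansion G) X) (hc : X.card = 3) :
    ∃ (I : Finset V) (J : Finset (Sym2 V)), (∀ x ∈ I, ∀ y ∈ I, ¬ G.Adj x y) ∧
      (∀ x y, G.Adj x y → x ∉ I → y ∉ I → s(x, y) ∈ J) ∧ (∀ e ∈ J, e ∈ G.edgeSet) ∧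
      ((I.card ≤ 3 ∧ J.card = 0) ∨ (I.card ≤ 2 ∧ J.card = 1) ∨ (I.card ≤ 1 ∧ J.card = 2)) := by
  set I := X.toLeft with hI
  set J := X.toRight.map (Function.Embedding.subtype _) with hJ
  have hcard : I.card + J.card = 3 := by
    rw [hJ, card_map, hI, card_toLeft_add_card_toRight, hc]
  have hind : ∀ x ∈ I, ∀ y ∈ I, ¬ G.Adj x y := by
    intro x hx y hy hxy
    have h1 := hX _ ⟨x, y, hxy, rfl⟩
    have h2 : ({Sum.inl x, Sum.inl y} : Finset (V ⊕ G.edgeSet)) ⊆
        {Sum.inl x, Sum.inl y, Sum.inr (⟨s(x, y), hxy⟩ : G.edgeSet)} ∩ X := by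
      intro t ht
      simp only [mem_insert, mem_singleton] at ht
      rcases ht with rfl | rfl
      · exact mem_inter.mpr ⟨by simp, mem_toLeft.mp hx⟩
      · exact mem_inter.mpr ⟨by simp, mem_toLeft.mp hy⟩
    have h3 := card_le_card h2
    rw [card_pair (fun h => hxy.ne (Sum.inl_injective h)), h1] at h3
    omega
  have hout : ∀ x y, G.Adj x y → x ∉ I → y ∉ I → s(x, y) ∈ J := by
    intro x y hxy hx hy
    have h1 := hX _ ⟨x, y, hxy, rfl⟩
    obtain ⟨t, ht⟩ := card_pos.mp (h1 ▸ Nat.one_pos)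
    rw [mem_inter] at ht
    obtain ⟨ht1, ht2⟩ := ht
    simp only [mem_insert, mem_singleton] at ht1
    rcases ht1 with rfl | rfl | rfl
    · exact absurd (mem_toLeft.mpr ht2) hx
    · exact absurd (mem_toLeft.mpr ht2) hy
    · rw [hJ, mem_map]
      exact ⟨_, mem_toRight.mpr ht2, rfl⟩
  have hJE : ∀ e ∈ J, e ∈ G.edgeSet := by
    intro e he
    rw [hJ, mem_map] at he
    obtain ⟨f, -, rfl⟩ := he
    exact f.2
  by_cases h0 : J.card = 3
  · obtain ⟨e, he⟩ := card_pos.mp (h0 ▸ (by norm_num : 0 < 3))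
    induction e using Sym2.ind with
    | _ c w =>
    have hI0 : I = ∅ := card_eq_zero.mp (by omega)
    refine ⟨{c}, J.erase s(c, w), ?_, ?_, fun e h => hJE e (mem_of_mem_erase h), ?_⟩
    · intro x hx y hy hxy
      rw [mem_singleton] at hx hy
      exact hxy.ne (hx.trans hy.symm)
    · intro x y hxy hx hy
      rw [mem_singleton] at hx hy
      refine mem_erase.mpr ⟨?_, hout x y hxy (by simp [hI0]) (by simp [hI0])⟩
      intro h
      rcases Sym2.eq_iff.mp h with ⟨h1, -⟩ | ⟨-, h1⟩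
      · exact hx h1
      · exact hy h1
    · right; right
      exact ⟨by simp, by rw [card_erase_of_mem he, h0]⟩
  · exact ⟨I, J, hind, hout, hJE, by omega⟩

/-- The quadratic upper bound. -/
theorem upper_bound (G : SimpleGraph V) {X : Finset (V ⊕ G.edgeSet)}
    (hX : IsCrosscut (expansion G) X) (hc : X.card = 3) :
    ∃ C : ℕ, ∀ (n : ℕ) (H : Finset (Finset (Fin n))), IsThreeGraph H →
      ¬ ContainsCopy H (expansion G) → H.card ≤ C * n ^ 2 := by
  obtain ⟨I, J, hind, hout, hJE, hcase⟩ := shape_of_crosscut G hX hc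
  set D := 2 * Fintype.card V with hD
  set d := D + Fintype.card (Sym2 V) + 3 with hd
  refine ⟨(D + 3) + D ^ 2 + d, fun n H h3 hno => ?_⟩
  obtain ⟨H', hsub, hF, hle⟩ := exists_full' d H h3
  rw [Fintype.card_fin] at hle
  have h3' : IsThreeGraph H' := fun e he => h3 e (hsub he)
  set S := shadowGraph H' with hS
  have hnoψ : ¬ ∃ ψ : V ↪ Fin n, ∀ x y, G.Adj x y → S.Adj (ψ x) (ψ y) := by
    rintro ⟨ψ, hψ⟩
    obtain ⟨φ, hφ⟩ := containsCopy_of_embed G hF (by omega) ψ hψ
    exact hno ⟨φ, fun e he => hsub (hφ e he)⟩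
  suffices hH' : H'.card ≤ ((D + 3) + D ^ 2) * n ^ 2 by
    calc H.card ≤ H'.card + d * n ^ 2 := hle
      _ ≤ ((D + 3) + D ^ 2) * n ^ 2 + d * n ^ 2 := by omega
      _ = _ := by ring
  rcases hcase with ⟨hI, hJ⟩ | ⟨hI, hJ⟩ | ⟨hI, hJ⟩
  · have := card_le_of_three h3' D (fun u v w huv huw hvw => by
      by_contra hlt
      rw [← hS] at hlt
      apply hnoψ
      refine embed_of G S I ∅ {u, v, w} (nbr S u ∩ nbr S v ∩ nbr S w) ?_ ?_ (by omega)
        (fun _ => u) (by simp) (by simp) hind ?_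
      · rwa [card_triple_eq_three_iff.mpr ⟨huv, huw, hvw⟩]
      · intro a ha b hb
        simp only [mem_inter, mem_nbr] at hb
        simp only [mem_insert, mem_singleton] at ha
        rcases ha with rfl | rfl | rfl
        exacts [hb.1.1, hb.1.2, hb.2]
      · intro x y hxy hx hy
        have := hout x y hxy hx hy
        rw [card_eq_zero.mp hJ] at this
        simp at this)
    rw [Fintype.card_fin] at this
    exact this.trans (Nat.mul_le_mul_right _ (Nat.le_add_right _ _))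
  · have := card_le_of_two h3' hF (by omega) D (fun u v x1 x2 huv h12 b1 b2 => by
      by_contra hlt
      rw [← hS] at hlt
      apply hnoψ
      obtain ⟨e, hJe⟩ := card_eq_one.mp hJ
      induction e using Sym2.ind with
      | _ a b =>
      have hab : G.Adj a b := hJE s(a, b) (by simp [hJe])
      obtain ⟨h, W, w1, w2, w3, w4, w5⟩ :=
        one_edge S (nbr S u ∩ nbr S v) h12 b1 b2 hab.ne
      refine embed_of G S I W {u, v} (nbr S u ∩ nbr S v) ?_ ?_ (by omega) h w1 w2 hind ?_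
      · rwa [card_pair huv]
      · intro a ha b hb
        simp only [mem_inter, mem_nbr] at hb
        simp only [mem_insert, mem_singleton] at ha
        rcases ha with rfl | rfl
        exacts [hb.1, hb.2]
      · intro x y hxy hx hy
        have := hout x y hxy hx hy
        rw [hJe, mem_singleton] at this
        rcases Sym2.eq_iff.mp this with ⟨rfl, rfl⟩ | ⟨rfl, rfl⟩
        · exact ⟨w3, w4, w5⟩
        · exact ⟨w4, w3, w5.symm⟩)
    rw [Fintype.card_fin] at this
    exact this.trans (Nat.mul_le_mul_right _ (Nat.le_add_left _ _))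
  · rcases H'.eq_empty_or_nonempty with h0 | hne
    · simp [h0]
    exfalso
    apply hnoψ
    obtain ⟨c, x1, x2, x3, x4, h12, h23, h34, n13, n14, n24, b1, b2, b3, b4, hbig⟩ :=
      exists_path_in_nbr h3' hF (by omega) hne
    rw [← hS] at hbig
    obtain ⟨e, e', -, hJe⟩ := card_eq_two.mp hJ
    induction e using Sym2.ind with
    | _ a b =>
    induction e' using Sym2.ind with
    | _ a' b' =>
    have hab : G.Adj a b := hJE s(a, b) (by simp [hJe])
    have hab' : G.Adj a' b' := hJE s(a', b') (by simp [hJe])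
    obtain ⟨h, W, w1, w2, w3, w4, w5, w6, w7, w8⟩ :=
      two_edge S (nbr S c) h12 h23 h34 n13 n14 n24 b1 b2 b3 b4 hab.ne hab'.ne
    refine embed_of G S I W {c} (nbr S c) (by simpa using hI) ?_ (by omega) h w1 w2 hind ?_
    · intro a ha b hb
      rw [mem_singleton] at ha
      subst ha
      exact mem_nbr.mp hb
    · intro x y hxy hx hy
      have := hout x y hxy hx hy
      rw [hJe, mem_insert, mem_singleton] at this
      rcases this with this | this
      · rcases Sym2.eq_iff.mp this with ⟨rfl, rfl⟩ | ⟨rfl, rfl⟩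
        · exact ⟨w3, w4, w7⟩
        · exact ⟨w4, w3, w7.symm⟩
      · rcases Sym2.eq_iff.mp this with ⟨rfl, rfl⟩ | ⟨rfl, rfl⟩
        · exact ⟨w5, w6, w8⟩
        · exact ⟨w6, w5, w8.symm⟩

/-- The star construction: all triples through one vertex. -/
theorem lower_bound {W : Type*} [Fintype W] [DecidableEq W] (F : Set (Finset W))
    (hF : ∀ X : Finset W, IsCrosscut F X → 2 ≤ X.card) (n : ℕ) :
    ∃ H : Finset (Finset (Fin (n + 1))), IsThreeGraph H ∧ ¬ ContainsCopy H F ∧
      H.card = n.choose 2 := by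
  let P := powersetCard 2 ((univ : Finset (Fin (n + 1))).erase 0)
  have hP : ∀ p ∈ P, p.card = 2 ∧ (0 : Fin (n + 1)) ∉ p := by
    intro p hp
    obtain ⟨h1, h2⟩ := mem_powersetCard.mp hp
    exact ⟨h2, fun h => (mem_erase.mp (h1 h)).1 rfl⟩
  refine ⟨P.image (insert 0), ?_, ?_, ?_⟩
  · intro e he
    obtain ⟨p, hp, rfl⟩ := mem_image.mp he
    rw [card_insert_of_notMem (hP p hp).2, (hP p hp).1]
  · rintro ⟨φ, hφ⟩
    have h1 : IsCrosscut F (univ.filter (fun w => φ w = 0)) := by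
      intro e he
      obtain ⟨p, -, hp⟩ := mem_image.mp (hφ e he)
      have h0 : (0 : Fin (n + 1)) ∈ e.map φ := hp ▸ mem_insert_self _ _
      obtain ⟨w, hw, hw0⟩ := mem_map.mp h0
      rw [card_eq_one]
      refine ⟨w, ?_⟩
      ext v
      simp only [mem_inter, mem_filter, mem_univ, true_and, mem_singleton]
      constructor
      · rintro ⟨-, hv⟩
        exact φ.injective (hv.trans hw0.symm)
      · rintro rfl
        exact ⟨hw, hw0⟩
    have h2 := hF _ h1
    have h3 : (univ.filter (fun w => φ w = 0)).card ≤ 1 := by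
      rw [card_le_one]
      intro a ha b hb
      exact φ.injective ((mem_filter.mp ha).2.trans (mem_filter.mp hb).2.symm)
    omega
  · rw [card_image_of_injOn, card_powersetCard, card_erase_of_mem (mem_univ _)]
    · simp
    · intro p hp q hq hpq
      have h1 := erase_insert (hP p hp).2
      have h2 := erase_insert (hP q hq).2
      rw [← h1, ← h2]
      exact congrArg (fun s => Finset.erase s 0) hpq

omit [Fintype V] in
theorem ex3_bdd {W : Type*} (F : Set (Finset W)) (n : ℕ) :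
    BddAbove {m : ℕ | ∃ H : Finset (Finset (Fin n)),
      IsThreeGraph H ∧ ¬ ContainsCopy H F ∧ H.card = m} := by
  refine ⟨Fintype.card (Finset (Fin n)), ?_⟩
  rintro m ⟨H, -, -, rfl⟩
  exact card_le_univ H

theorem main_theta (G : SimpleGraph V) (hσ : CrosscutNumberEq (expansion G) 3) :
    (fun n : ℕ => (ex3 n (expansion G) : ℝ)) =Θ[Filter.atTop] (fun n : ℕ => (n : ℝ) ^ 2) := by
  classical
  obtain ⟨⟨X, hX, hc⟩, hmin⟩ := hσ
  obtain ⟨C, hC⟩ := upper_bound G hX hc
  constructor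
  · refine Asymptotics.IsBigO.of_bound C (Filter.Eventually.of_forall fun n => ?_)
    have h1 : ex3 n (expansion G) ≤ C * n ^ 2 := by
      apply csSup_le'
      rintro m ⟨H, h3, hno, rfl⟩
      exact hC n H h3 hno
    rw [Real.norm_of_nonneg (by positivity), Real.norm_of_nonneg (by positivity)]
    exact_mod_cast h1
  · refine Asymptotics.IsBigO.of_bound 12 ?_
    filter_upwards [Filter.eventually_ge_atTop 3] with n hn
    obtain ⟨k, rfl⟩ : ∃ k, n = k + 3 := ⟨n - 3, by omega⟩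
    obtain ⟨H, h3, hno, hcard⟩ := lower_bound (expansion G)
      (fun Y hY => le_trans (by norm_num) (hmin ⟨Y, hY, rfl⟩)) (k + 2)
    have h1 : (k + 2).choose 2 ≤ ex3 (k + 3) (expansion G) :=
      le_csSup (ex3_bdd _ _) ⟨H, h3, hno, hcard⟩
    have h2 : 2 * (k + 2).choose 2 = (k + 2) * (k + 1) := by
      rw [Nat.choose_two_right]
      exact Nat.mul_div_cancel' (Nat.even_mul_pred_self (k + 2)).two_dvd
    have h4 : (k + 3) ^ 2 ≤ 12 * ex3 (k + 3) (expansion G) := by nlinarith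
    rw [Real.norm_of_nonneg (by positivity), Real.norm_of_nonneg (by positivity)]
    exact_mod_cast h4

end Pool.Agent.P.MP_e3cf1a_co
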