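import Pool.Agent.P.MP_e3cf1a_co.Defs

/-!
Full subgraphs, the shadow graph, and greedy extension of a copy of `G` in the shadow to a copy
of the expansion.
-/

namespace Pool.Agent.P.MP_e3cf1a_co

open Finset

variable {U : Type*} [Fintype U] [DecidableEq U]

/-- The third vertices of the pair `x, y` in `H`. -/
def link2 (H : Finset (Finset U)) (x y : U) : Finset U :=
  univ.filter (fun z => ({x, y, z} : Finset U) ∈ H)

lemma mem_link2 {H : Finset (Finset U)} {x y z : U} :
    z ∈ link2 H x y ↔ ({x, y, z} : Finset U) ∈ H := by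
  simp [link2]

/-- Every pair covered by an edge has codegree at least `d`. -/
def Full (d : ℕ) (H : Finset (Finset U)) : Prop :=
  ∀ x y z : U, ({x, y, z} : Finset U) ∈ H → d ≤ (link2 H x y).card

/-- The ordered pairs covered by an edge. -/
def shadowPairs (H : Finset (Finset U)) : Finset (U × U) :=
  univ.filter (fun p => ∃ z, ({p.1, p.2, z} : Finset U) ∈ H)

omit [Fintype U] in
lemma distinct_of_mem {H : Finset (Finset U)} (h3 : IsThreeGraph H) {x y z : U}
    (h : ({x, y, z} : Finset U) ∈ H) : x ≠ y ∧ x ≠ z ∧ y ≠ z := by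
  have := h3 _ h
  exact Finset.card_triple_eq_three_iff.mp this

omit [Fintype U] in
lemma exists_third {e : Finset U} (he : e.card = 3) {x y : U} (hx : x ∈ e) (hy : y ∈ e)
    (hxy : x ≠ y) : ∃ z, e = {x, y, z} := by
  have h1 : ((e.erase x).erase y).card = 1 := by
    rw [card_erase_of_mem (mem_erase.mpr ⟨hxy.symm, hy⟩), card_erase_of_mem hx, he]
  obtain ⟨z, hz⟩ := card_eq_one.mp h1
  refine ⟨z, ?_⟩
  have h2 : e = insert x (insert y ((e.erase x).erase y)) := by
    rw [insert_erase (mem_erase.mpr ⟨hxy.symm, hy⟩), insert_erase hx]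
  rw [h2, hz]

lemma exists_full (d : ℕ) (m : ℕ) : ∀ H : Finset (Finset U), H.card = m → IsThreeGraph H →
    ∃ H' ⊆ H, Full d H' ∧ H.card ≤ H'.card + d * (shadowPairs H).card := by
  induction m using Nat.strong_induction_on with
  | _ m ih =>
  intro H hm h3
  by_cases hF : Full d H
  · exact ⟨H, subset_rfl, hF, Nat.le_add_right _ _⟩
  · unfold Full at hF
    push Not at hF
    obtain ⟨x, y, z, hxyz, hlt⟩ := hF
    have hxy : x ≠ y := (distinct_of_mem h3 hxyz).1
    set H1 := H.filter (fun e => ¬ (x ∈ e ∧ y ∈ e)) with hH1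
    have hsub : H1 ⊆ H := filter_subset _ _
    have hlt1 : H1.card < m := by
      rw [← hm]
      apply card_lt_card
      refine ⟨hsub, fun h => ?_⟩
      have := h hxyz
      simp [hH1] at this
    have h31 : IsThreeGraph H1 := fun e he => h3 e (hsub he)
    obtain ⟨H', hH', hF', hc⟩ := ih _ hlt1 H1 rfl h31
    refine ⟨H', hH'.trans hsub, hF', ?_⟩
    have hrem : (H.filter (fun e => x ∈ e ∧ y ∈ e)).card ≤ (link2 H x y).card := by
      have : H.filter (fun e => x ∈ e ∧ y ∈ e) ⊆
          (link2 H x y).image (fun z => ({x, y, z} : Finset U)) := by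
        intro e he
        rw [mem_filter] at he
        obtain ⟨w, hw⟩ := exists_third (h3 e he.1) he.2.1 he.2.2 hxy
        rw [mem_image]
        exact ⟨w, mem_link2.mpr (hw ▸ he.1), hw.symm⟩
      exact (card_le_card this).trans card_image_le
    have hsplit : (H.filter (fun e => x ∈ e ∧ y ∈ e)).card + H1.card = H.card :=
      card_filter_add_card_filter_not _
    have hsh : (shadowPairs H1).card + 1 ≤ (shadowPairs H).card := by
      apply card_lt_card
      refine ⟨?_, fun h => ?_⟩
      · intro p hp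
        simp only [shadowPairs, mem_filter, mem_univ, true_and] at hp ⊢
        obtain ⟨w, hw⟩ := hp
        exact ⟨w, (mem_filter.mp hw).1⟩
      · have h1 : (x, y) ∈ shadowPairs H := by
          simp only [shadowPairs, mem_filter, mem_univ, true_and]
          exact ⟨z, hxyz⟩
        have h2 := h h1
        simp only [shadowPairs, mem_filter, mem_univ, true_and] at h2
        obtain ⟨w, hw⟩ := h2
        have := (mem_filter.mp hw).2
        simp at this
    have : d * ((shadowPairs H1).card + 1) ≤ d * (shadowPairs H).card :=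
      Nat.mul_le_mul_left _ hsh
    nlinarith

lemma exists_full' (d : ℕ) (H : Finset (Finset U)) (h3 : IsThreeGraph H) :
    ∃ H' ⊆ H, Full d H' ∧ H.card ≤ H'.card + d * (Fintype.card U) ^ 2 := by
  obtain ⟨H', h1, h2, h4⟩ := exists_full d _ H rfl h3
  refine ⟨H', h1, h2, h4.trans ?_⟩
  have : (shadowPairs H).card ≤ (Fintype.card U) ^ 2 := by
    have := card_le_univ (shadowPairs H)
    simpa [Fintype.card_prod, sq] using this
  have := Nat.mul_le_mul_left d this
  omega

/-- The shadow graph of `H`. -/
def shadowGraph (H : Finset (Finset U)) : SimpleGraph U where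
  Adj x y := x ≠ y ∧ ∃ z, ({x, y, z} : Finset U) ∈ H
  symm := ⟨fun x y h => ⟨h.1.symm, by
    obtain ⟨z, hz⟩ := h.2
    exact ⟨z, by rwa [insert_comm]⟩⟩⟩
  loopless := ⟨fun x h => h.1 rfl⟩

/-- Systems of distinct representatives for large sets. -/
lemma exists_sdr {ι α : Type*} [Fintype ι] [DecidableEq α] (t : ι → Finset α)
    (ht : ∀ i, Fintype.card ι ≤ (t i).card) :
    ∃ f : ι → α, Function.Injective f ∧ ∀ i, f i ∈ t i := by
  apply (Finset.all_card_le_biUnion_card_iff_exists_injective t).mp
  intro s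
  rcases s.eq_empty_or_nonempty with rfl | ⟨i, hi⟩
  · simp
  · calc s.card ≤ Fintype.card ι := card_le_univ s
      _ ≤ (t i).card := ht i
      _ ≤ (s.biUnion t).card := card_le_card (subset_biUnion_of_mem t hi)

/-- A copy of `G` in the shadow of a sufficiently full 3-graph extends to a copy of `G⁺`. -/
lemma containsCopy_of_embed {V : Type*} [Fintype V] [DecidableEq V] (G : SimpleGraph V)
    {H : Finset (Finset U)} {d : ℕ} (hF : Full d H)
    (hd : Fintype.card V + Fintype.card (Sym2 V) ≤ d)
    (ψ : V ↪ U) (hψ : ∀ x y, G.Adj x y → (shadowGraph H).Adj (ψ x) (ψ y)) :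
    ContainsCopy H (expansion G) := by
  classical
  let t : G.edgeSet → Finset U := fun e =>
    (univ.filter (fun z => insert z ((e : Sym2 V).toFinset.map ψ) ∈ H)) \ (univ.map ψ)
  have key : ∀ (x y : V) (z : U),
      insert z ((s(x, y) : Sym2 V).toFinset.map ψ) = ({ψ x, ψ y, z} : Finset U) := by
    intro x y z
    ext w
    simp only [Sym2.toFinset_mk_eq, map_insert, map_singleton, mem_insert, mem_singleton]
    tauto
  have ht : ∀ e, Fintype.card G.edgeSet ≤ (t e).card := by
    rintro ⟨e, he⟩
    induction e using Sym2.ind with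
    | _ x y =>
    have hadj : G.Adj x y := he
    obtain ⟨-, z, hz⟩ := hψ x y hadj
    have h1 := hF _ _ _ hz
    have h2 : univ.filter (fun z => insert z ((s(x, y) : Sym2 V).toFinset.map ψ) ∈ H) =
        link2 H (ψ x) (ψ y) := by
      ext w
      rw [mem_link2, mem_filter, key]
      simp
    have h3 : (t ⟨s(x, y), he⟩) = link2 H (ψ x) (ψ y) \ univ.map ψ := by
      simp only [t, h2]
    rw [h3]
    have h4 := le_card_sdiff (univ.map ψ) (link2 H (ψ x) (ψ y))
    have h5 : (univ.map ψ).card = Fintype.card V := by simp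
    have h6 : Fintype.card G.edgeSet ≤ Fintype.card (Sym2 V) :=
      Fintype.card_le_of_injective _ Subtype.val_injective
    omega
  obtain ⟨f, hf, hft⟩ := exists_sdr t ht
  have hnot : ∀ e v, f e ≠ ψ v := by
    intro e v h
    have := (mem_sdiff.mp (hft e)).2
    apply this
    rw [h]
    exact mem_map_of_mem _ (mem_univ v)
  refine ⟨⟨Sum.elim ψ f, ?_⟩, ?_⟩
  · exact Function.Injective.sumElim ψ.injective hf (fun a b => (hnot b a).symm)
  · rintro e ⟨x, y, h, rfl⟩
    have h1 := (mem_filter.mp (mem_sdiff.mp (hft ⟨s(x, y), h⟩)).1).2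
    rw [key] at h1
    simpa using h1

end Pool.Agent.P.MP_e3cf1a_co
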